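import Pool.Agent.H82.G4.Targets

/-!
Theorem G (MP_ee74d2_an), group G4, row DCL: `ℓ²` decoupling of a set of caps of radius `1/K` near
the cell `j`.
-/

set_option autoImplicit false

namespace Pool.Agent.H69.G4.DCL

open Pool.Agent.H82.G4 Pool.Agent.H83.G MeasureTheory Set
open scoped ENNReal NNReal RealInnerProductSpace

private theorem freqc {m : ℕ} (a₁ b₁ a₂ b₂ t k κ : ℝ) (ξ₁ ξ₂ c : E m) (ht0 : 0 < t) (ht1 : t ≤ 1)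
    (htk : t ≤ k) (hκ0 : 0 ≤ κ) (hκ : κ ≤ 3 / 8) (h1 : 1 - κ ≤ a₁) (h2 : a₁ ≤ 4 + κ)
    (h3 : ‖ξ₁‖ ≤ (1 + κ) * a₁) (h4 : |b₁ - ‖ξ₁‖ ^ 2 / a₁| ≤ (1 + κ) * t)
    (hc : ‖a₁⁻¹ • ξ₁ - c‖ ≤ k) (ha₂ : |a₂| ≤ 1 / 1000) (hξ₂ : ‖ξ₂‖ ≤ 1 / 1000)
    (hb₂ : |b₂| ≤ 1 / 1000) :
    1 / 2 ≤ a₁ + t * a₂ ∧ a₁ + t * a₂ ≤ 6 ∧
      ‖(a₁ + t * a₂)⁻¹ • (ξ₁ + t • ξ₂) - c‖ ≤ 2 * k ∧
      |b₁ + t * b₂ - ‖ξ₁ + t • ξ₂‖ ^ 2 / (a₁ + t * a₂)| ≤ 2 * t := by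
  have hta : |t * a₂| ≤ t / 1000 := by
    rw [abs_mul, abs_of_pos ht0]
    nlinarith
  have hta' := abs_le.1 hta
  have ha1 : 5 / 8 ≤ a₁ := by linarith
  have ha1' : a₁ ≤ 35 / 8 := by linarith
  have ha : 1 / 2 ≤ a₁ + t * a₂ := by linarith [hta'.1]
  have ha' : a₁ + t * a₂ ≤ 6 := by linarith [hta'.2]
  have hu0 : 0 < (a₁ + t * a₂)⁻¹ := by
    apply inv_pos.2
    linarith
  have hu2 : (a₁ + t * a₂)⁻¹ ≤ 2 := by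
    rw [inv_le_comm₀ (by linarith) (by norm_num)]
    linarith
  have hv0 : 0 < a₁⁻¹ := by
    apply inv_pos.2
    linarith
  have hn0 : 0 ≤ ‖ξ₁‖ := norm_nonneg _
  have hξ7 : ‖ξ₁‖ ≤ 7 := by nlinarith
  have huv : |(a₁ + t * a₂)⁻¹ - a₁⁻¹| * ‖ξ₁‖ ≤ 11 / 4000 * t := by
    have e1 : (a₁ + t * a₂)⁻¹ - a₁⁻¹ = (a₁ + t * a₂)⁻¹ * a₁⁻¹ * (-(t * a₂)) := by
      have hx : a₁ + t * a₂ ≠ 0 := by linarith
      have hy : a₁ ≠ 0 := by linarith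
      field_simp
      ring
    have e2 : |(a₁ + t * a₂)⁻¹ - a₁⁻¹| ≤ (a₁ + t * a₂)⁻¹ * a₁⁻¹ * (t / 1000) := by
      rw [e1, abs_mul, abs_neg, abs_of_pos (mul_pos hu0 hv0)]
      exact mul_le_mul_of_nonneg_left hta (mul_pos hu0 hv0).le
    calc |(a₁ + t * a₂)⁻¹ - a₁⁻¹| * ‖ξ₁‖
        ≤ ((a₁ + t * a₂)⁻¹ * a₁⁻¹ * (t / 1000)) * ((1 + κ) * a₁) :=
          mul_le_mul e2 h3 hn0 (by positivity)
      _ = (a₁ + t * a₂)⁻¹ * ((t / 1000) * (1 + κ)) := by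
          have hy : a₁ ≠ 0 := by linarith
          have hy2 : a₁⁻¹ * a₁ = 1 := inv_mul_cancel₀ hy
          linear_combination ((a₁ + t * a₂)⁻¹ * (t / 1000) * (1 + κ)) * hy2
      _ ≤ 2 * ((t / 1000) * (1 + κ)) :=
          mul_le_mul_of_nonneg_right hu2 (by positivity)
      _ ≤ 11 / 4000 * t := by nlinarith
  have htξ : ‖t • ξ₂‖ ≤ t / 1000 := by
    rw [norm_smul, Real.norm_eq_abs, abs_of_pos ht0]
    nlinarith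
  refine ⟨ha, ha', ?_, ?_⟩
  · have e3 : (a₁ + t * a₂)⁻¹ • (ξ₁ + t • ξ₂) - c = (a₁⁻¹ • ξ₁ - c) +
        ((a₁ + t * a₂)⁻¹ - a₁⁻¹) • ξ₁ + (a₁ + t * a₂)⁻¹ • (t • ξ₂) := by
      module
    rw [e3]
    have e4 : ‖((a₁ + t * a₂)⁻¹ - a₁⁻¹) • ξ₁‖ ≤ 11 / 4000 * t := by
      rw [norm_smul, Real.norm_eq_abs]
      exact huv
    have e5 : ‖(a₁ + t * a₂)⁻¹ • (t • ξ₂)‖ ≤ 2 * (t / 1000) := by
      rw [norm_smul, Real.norm_eq_abs, abs_of_pos hu0]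
      exact mul_le_mul hu2 htξ (norm_nonneg _) (by norm_num)
    calc _ ≤ ‖(a₁⁻¹ • ξ₁ - c) + ((a₁ + t * a₂)⁻¹ - a₁⁻¹) • ξ₁‖ +
          ‖(a₁ + t * a₂)⁻¹ • (t • ξ₂)‖ := norm_add_le _ _
      _ ≤ (‖a₁⁻¹ • ξ₁ - c‖ + ‖((a₁ + t * a₂)⁻¹ - a₁⁻¹) • ξ₁‖) +
          ‖(a₁ + t * a₂)⁻¹ • (t • ξ₂)‖ := by
          gcongr
          exact norm_add_le _ _
      _ ≤ 2 * k := by linarith
  · have e6 : b₁ + t * b₂ - ‖ξ₁ + t • ξ₂‖ ^ 2 / (a₁ + t * a₂) =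
        (b₁ - ‖ξ₁‖ ^ 2 / a₁) + t * b₂ + (-(‖ξ₁‖ * (((a₁ + t * a₂)⁻¹ - a₁⁻¹) * ‖ξ₁‖))) +
          (‖ξ₁‖ - ‖ξ₁ + t • ξ₂‖) * (‖ξ₁‖ + ‖ξ₁ + t • ξ₂‖) * (a₁ + t * a₂)⁻¹ := by
      rw [div_eq_mul_inv, div_eq_mul_inv]
      ring
    have hξn : ‖ξ₁ + t • ξ₂‖ ≤ 8 := by
      calc _ ≤ ‖ξ₁‖ + ‖t • ξ₂‖ := norm_add_le _ _
        _ ≤ 8 := by linarith
    have hd : |‖ξ₁‖ - ‖ξ₁ + t • ξ₂‖| ≤ t / 1000 := by
      calc _ ≤ ‖ξ₁ - (ξ₁ + t • ξ₂)‖ := abs_norm_sub_norm_le _ _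
        _ = ‖t • ξ₂‖ := by rw [sub_add_cancel_left, norm_neg]
        _ ≤ _ := htξ
    have f1 : |t * b₂| ≤ t / 1000 := by
      rw [abs_mul, abs_of_pos ht0]
      nlinarith
    have f2 : |-(‖ξ₁‖ * (((a₁ + t * a₂)⁻¹ - a₁⁻¹) * ‖ξ₁‖))| ≤ 7 * (11 / 4000 * t) := by
      rw [abs_neg, abs_mul, abs_mul, abs_of_nonneg hn0]
      exact mul_le_mul hξ7 huv (by positivity) (by norm_num)
    have f3 : |(‖ξ₁‖ - ‖ξ₁ + t • ξ₂‖) * (‖ξ₁‖ + ‖ξ₁ + t • ξ₂‖) * (a₁ + t * a₂)⁻¹| ≤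
        t / 1000 * 15 * 2 := by
      rw [abs_mul, abs_mul, abs_of_pos hu0]
      refine mul_le_mul (mul_le_mul hd ?_ (abs_nonneg _) (by positivity)) hu2 hu0.le
        (by positivity)
      rw [abs_of_nonneg (by positivity)]
      linarith
    rw [e6]
    calc _ ≤ |(b₁ - ‖ξ₁‖ ^ 2 / a₁) + t * b₂ + (-(‖ξ₁‖ * (((a₁ + t * a₂)⁻¹ - a₁⁻¹) * ‖ξ₁‖)))| +
          |(‖ξ₁‖ - ‖ξ₁ + t • ξ₂‖) * (‖ξ₁‖ + ‖ξ₁ + t • ξ₂‖) * (a₁ + t * a₂)⁻¹| :=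
          abs_add_le _ _
      _ ≤ (|(b₁ - ‖ξ₁‖ ^ 2 / a₁) + t * b₂| +
          |-(‖ξ₁‖ * (((a₁ + t * a₂)⁻¹ - a₁⁻¹) * ‖ξ₁‖))|) +
          |(‖ξ₁‖ - ‖ξ₁ + t • ξ₂‖) * (‖ξ₁‖ + ‖ξ₁ + t • ξ₂‖) * (a₁ + t * a₂)⁻¹| := by
          gcongr
          exact abs_add_le _ _
      _ ≤ ((|b₁ - ‖ξ₁‖ ^ 2 / a₁| + |t * b₂|) +
          |-(‖ξ₁‖ * (((a₁ + t * a₂)⁻¹ - a₁⁻¹) * ‖ξ₁‖))|) +
          |(‖ξ₁‖ - ‖ξ₁ + t • ξ₂‖) * (‖ξ₁‖ + ‖ξ₁ + t • ξ₂‖) * (a₁ + t * a₂)⁻¹| := by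
          gcongr
          exact abs_add_le _ _
      _ ≤ 2 * t := by nlinarith

private theorem freq {m : ℕ} {κ R K : ℝ} {ζ₁ ζ₂ : Z m} {c : E m} (hK : 1 ≤ K) (hR : K ^ 2 ≤ R)
    (hκ0 : 0 ≤ κ) (hκ : κ ≤ 3 / 8) (h1 : ζ₁ ∈ Rg m κ R⁻¹) (hc : ‖ζ₁.1⁻¹ • ζ₁.2.1 - c‖ ≤ K⁻¹)
    (h2 : ‖ζ₂‖ ≤ 1 / 1000) :
    1 / 2 ≤ (ζ₁ + K⁻¹ ^ 2 • ζ₂).1 ∧ (ζ₁ + K⁻¹ ^ 2 • ζ₂).1 ≤ 6 ∧
    ‖(ζ₁ + K⁻¹ ^ 2 • ζ₂).1⁻¹ • (ζ₁ + K⁻¹ ^ 2 • ζ₂).2.1 - c‖ ≤ 2 * K⁻¹ ∧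
    |(ζ₁ + K⁻¹ ^ 2 • ζ₂).2.2 - ‖(ζ₁ + K⁻¹ ^ 2 • ζ₂).2.1‖ ^ 2 / (ζ₁ + K⁻¹ ^ 2 • ζ₂).1| ≤
      2 * K⁻¹ ^ 2 := by
  have hK0 : 0 < K := by linarith
  have hk0 : 0 < K⁻¹ := inv_pos.2 hK0
  have hk1 : K⁻¹ ≤ 1 := inv_le_one_of_one_le₀ hK
  have ht0 : 0 < K⁻¹ ^ 2 := by positivity
  have ht1 : K⁻¹ ^ 2 ≤ 1 := by nlinarith
  have htk : K⁻¹ ^ 2 ≤ K⁻¹ := by nlinarith
  have hRt : R⁻¹ ≤ K⁻¹ ^ 2 := by
    rw [inv_pow]
    exact inv_anti₀ (by positivity) hR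
  obtain ⟨g1, g2, g3, g4⟩ := h1
  have n1 : |ζ₂.1| ≤ 1 / 1000 := (norm_fst_le ζ₂).trans h2
  have n2 : ‖ζ₂.2.1‖ ≤ 1 / 1000 := (norm_fst_le ζ₂.2).trans ((norm_snd_le ζ₂).trans h2)
  have n3 : |ζ₂.2.2| ≤ 1 / 1000 := (norm_snd_le ζ₂.2).trans ((norm_snd_le ζ₂).trans h2)
  exact freqc ζ₁.1 ζ₁.2.2 ζ₂.1 ζ₂.2.2 (K⁻¹ ^ 2) K⁻¹ κ ζ₁.2.1 ζ₂.2.1 c ht0 ht1 htk hκ0 hκ g1 g2 g3
    (g4.trans (mul_le_mul_of_nonneg_left hRt (by linarith))) hc n1 n2 n3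

theorem pf_DCL (hRDA : T_RDA) (hMOD : T_MOD) (hLWX : T_LWX) (hLOA : T_LOA) (hCPS : T_CPS)
    (hSCH : T_SCH) (hWT1 : T_WT1) (hWT3 : T_WT3) : T_DCL := by
  intro m N P ε β hm hN hP hmP hε hβ
  obtain ⟨Ξ, χ, hTC, hsupp, hχ, hχ0, hχ1⟩ := hLWX m
  have hP0 : 0 < P := by linarith
  obtain ⟨J, hJ1, hJ2⟩ : ∃ J : ℕ, 1 ≤ J ∧ 2 * ((P + 1) / (J : ℝ)) ≤ ε := by
    obtain ⟨n, hn⟩ := exists_nat_ge (2 * (P + 1) / ε)
    refine ⟨n + 1, by omega, ?_⟩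
    have h1 : 0 < ((n + 1 : ℕ) : ℝ) := by positivity
    rw [← mul_div_assoc, div_le_iff₀ h1]
    rw [div_le_iff₀ hε] at hn
    push_cast
    nlinarith
  obtain ⟨CR, hCR0, hCR⟩ := hRDA m 0 J P 2 1 hm hP hmP (by norm_num) (by norm_num) hJ1
  obtain ⟨hΞc, hΞd⟩ := hSCH m Ξ hTC
  obtain ⟨CS, hCS0, hCS⟩ := hΞd N
  obtain ⟨C3, -, -, hC3, -, hcell⟩ := hWT3 m N hN
  obtain ⟨hw01, hwc, hwm, hwn, -, -, -⟩ := hWT1 m N
  obtain ⟨-, -, -, -, hL1, -⟩ := hLOA m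
  refine ⟨((m : ℝ) + 2) ^ N * CR * (CS ^ P * (C3 + 1)), by positivity, ?_⟩
  intro K κ R G S j hK hKR hκ0 hκ hG hRg hS
  have hK0 : 0 < K := by linarith
  have hk0 : 0 < K⁻¹ := inv_pos.2 hK0
  have ht0 : 0 < K⁻¹ ^ 2 := by positivity
  rcases S.eq_empty_or_nonempty with rfl | hSne
  · simp [ENNReal.zero_rpow_of_pos hP0]
  have hGpos : ∀ ζ, G ζ ≠ 0 → 1 / 4 ≤ ζ.1 := by
    intro ζ hζ
    have := (hRg ζ hζ).1
    linarith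
  have hTCk : ∀ k, TC (fun ζ => cp β (ctr K⁻¹ k) K⁻¹ ζ * G ζ) := fun k =>
    hCPS m β (ctr K⁻¹ k) K⁻¹ G hβ.1 hk0 hG hGpos
  have hukc : ∀ k, Continuous (uk β K G k) := fun k => (hSCH m _ (hTCk k)).1
  -- the weights
  let X : Zi m → Z m → ℝ≥0∞ := fun l z => ‖TF Ξ (K⁻¹ ^ 2 • z - zc l)‖ₑ ^ P
  let w : Zi m → ℝ≥0∞ := fun l => ENNReal.ofReal (wt N (zc l - zc j))
  have hXm : ∀ l, Measurable (X l) := by
    intro l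
    have h1 : Continuous fun z : Z m => TF Ξ (K⁻¹ ^ 2 • z - zc l) :=
      hΞc.comp ((continuous_const_smul _).sub continuous_const)
    exact (h1.measurable.enorm).pow_const P
  have hA : ∀ z : Z m, ENNReal.ofReal (wt N (K⁻¹ ^ 2 • z - zc j)) ≤
      ENNReal.ofReal (((m : ℝ) + 2) ^ N) * ∑' l, w l * X l z := by
    intro z
    obtain ⟨l, hl⟩ := hcell (K⁻¹ ^ 2 • z)
    have h1 : 1 ≤ X l z := by
      have h2 : 1 ≤ χ (K⁻¹ ^ 2 • z - zc l) := hχ1 _ (hl.trans (by linarith [Nat.cast_nonneg (α := ℝ) m]))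
      have h3 : (1 : ℝ≥0∞) ≤ ‖TF Ξ (K⁻¹ ^ 2 • z - zc l)‖ₑ := by
        rw [← hχ, ← ofReal_norm_eq_enorm, Complex.norm_real, Real.norm_eq_abs,
          abs_of_nonneg (hχ0 _), ← ENNReal.ofReal_one]
        exact ENNReal.ofReal_le_ofReal h2
      exact ENNReal.one_le_rpow h3 hP0
    have h4 : ENNReal.ofReal (wt N (K⁻¹ ^ 2 • z - zc j)) ≤
        ENNReal.ofReal (((m : ℝ) + 2) ^ N) * w l := by
      rw [← ENNReal.ofReal_mul (by positivity)]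
      refine ENNReal.ofReal_le_ofReal ?_
      have h5 := hwm (K⁻¹ ^ 2 • z - zc j) (zc l - K⁻¹ ^ 2 • z)
      have h6 : K⁻¹ ^ 2 • z - zc j + (zc l - K⁻¹ ^ 2 • z) = zc l - zc j := by abel
      rw [h6] at h5
      have h7 : (((m : ℝ) + 2) ^ N)⁻¹ ≤ wt N (zc l - K⁻¹ ^ 2 • z) := by
        unfold wt
        refine inv_anti₀ (by positivity) (pow_le_pow_left₀ (by positivity) ?_ N)
        rw [norm_sub_rev]
        linarith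
      have h8 : wt N (K⁻¹ ^ 2 • z - zc j) * (((m : ℝ) + 2) ^ N)⁻¹ ≤ wt N (zc l - zc j) :=
        (mul_le_mul_of_nonneg_left h7 (hw01 _).1.le).trans h5
      rw [← div_eq_mul_inv, div_le_iff₀ (by positivity)] at h8
      linarith
    refine h4.trans (mul_le_mul_right ?_ _)
    calc w l = w l * 1 := (mul_one _).symm
      _ ≤ w l * X l z := mul_le_mul_right h1 _
      _ ≤ ∑' l, w l * X l z := ENNReal.le_tsum l
  have hB : ∀ z : Z m, ∑' l, w l * X l z ≤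
      ENNReal.ofReal (CS ^ P * (C3 + 1)) * ENNReal.ofReal (wt N (K⁻¹ ^ 2 • z - zc j)) := by
    intro z
    have h1 : ∀ l, w l * X l z ≤ ENNReal.ofReal (CS ^ P) *
        ENNReal.ofReal (wt N (K⁻¹ ^ 2 • z - zc l) * wt N (zc l - zc j)) := by
      intro l
      have h2 : X l z ≤ ENNReal.ofReal (CS ^ P) * ENNReal.ofReal (wt N (K⁻¹ ^ 2 • z - zc l)) := by
        have h3 : ‖TF Ξ (K⁻¹ ^ 2 • z - zc l)‖ₑ ≤
            ENNReal.ofReal (CS * wt N (K⁻¹ ^ 2 • z - zc l)) := by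
          rw [← ofReal_norm_eq_enorm]
          exact ENNReal.ofReal_le_ofReal (hCS _)
        have h4 : ENNReal.ofReal (wt N (K⁻¹ ^ 2 • z - zc l)) ^ P ≤
            ENNReal.ofReal (wt N (K⁻¹ ^ 2 • z - zc l)) := by
          have h5 : ENNReal.ofReal (wt N (K⁻¹ ^ 2 • z - zc l)) ≤ 1 := by
            rw [← ENNReal.ofReal_one]
            exact ENNReal.ofReal_le_ofReal (hw01 _).2
          calc _ ≤ ENNReal.ofReal (wt N (K⁻¹ ^ 2 • z - zc l)) ^ (1 : ℝ) :=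
                ENNReal.rpow_le_rpow_of_exponent_ge h5 (by linarith)
            _ = _ := ENNReal.rpow_one _
        calc X l z ≤ ENNReal.ofReal (CS * wt N (K⁻¹ ^ 2 • z - zc l)) ^ P :=
              ENNReal.rpow_le_rpow h3 hP0.le
          _ = ENNReal.ofReal (CS ^ P) * ENNReal.ofReal (wt N (K⁻¹ ^ 2 • z - zc l)) ^ P := by
              rw [ENNReal.ofReal_mul hCS0.le, ENNReal.mul_rpow_of_nonneg _ _ hP0.le,
                ENNReal.ofReal_rpow_of_nonneg hCS0.le hP0.le]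
          _ ≤ _ := mul_le_mul_right h4 _
      calc w l * X l z ≤ w l * (ENNReal.ofReal (CS ^ P) *
            ENNReal.ofReal (wt N (K⁻¹ ^ 2 • z - zc l))) := mul_le_mul_right h2 _
        _ = _ := by
            rw [ENNReal.ofReal_mul (hw01 _).1.le]
            ring
    calc ∑' l, w l * X l z ≤ ∑' l, ENNReal.ofReal (CS ^ P) *
          ENNReal.ofReal (wt N (K⁻¹ ^ 2 • z - zc l) * wt N (zc l - zc j)) :=
          ENNReal.tsum_le_tsum h1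
      _ = ENNReal.ofReal (CS ^ P) * ∑' l : Zi m,
          ENNReal.ofReal (wt N (K⁻¹ ^ 2 • z - zc l) * wt N (zc l - zc j)) := ENNReal.tsum_mul_left
      _ ≤ ENNReal.ofReal (CS ^ P) * (C3 * ENNReal.ofReal (wt N (K⁻¹ ^ 2 • z - zc j))) :=
          mul_le_mul_right (hC3 _ _) _
      _ ≤ ENNReal.ofReal (CS ^ P) * (ENNReal.ofReal ((C3 : ℝ) + 1) *
          ENNReal.ofReal (wt N (K⁻¹ ^ 2 • z - zc j))) := by
          refine mul_le_mul_right (mul_le_mul_left ?_ _) _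
          rw [← ENNReal.ofReal_coe_nnreal]
          exact ENNReal.ofReal_le_ofReal (by linarith)
      _ = _ := by
          rw [ENNReal.ofReal_mul (by positivity)]
          ring
  -- the estimate for one cell
  have hsR : sR (K ^ 2) = K⁻¹ := by
    unfold sR
    rw [Real.sqrt_sq hK0.le]
  have hstar : ∀ l, ∫⁻ z, ‖∑ k ∈ S, uk β K G k z‖ₑ ^ P * X l z ≤
      ENNReal.ofReal (CR * K ^ ε * (S.card : ℝ) ^ (P / 2 - 1)) *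
        ∑ k ∈ S, ∫⁻ z, ‖uk β K G k z‖ₑ ^ P * X l z := by
    intro l
    have hG' : ∀ k : Fin m → ℤ, ∃ G' : Z m → ℂ, TC G' ∧
        (∀ z, TF G' z = uk β K G k z * TF Ξ (K⁻¹ ^ 2 • z - zc l)) ∧
        ∀ ζ, G' ζ ≠ 0 → 1 / 2 ≤ ζ.1 ∧ ζ.1 ≤ 6 ∧ ‖ζ.1⁻¹ • ζ.2.1 - ctr K⁻¹ k‖ ≤ 2 * K⁻¹ ∧
          |ζ.2.2 - ‖ζ.2.1‖ ^ 2 / ζ.1| ≤ 2 * K⁻¹ ^ 2 := by
      intro k
      obtain ⟨G', h1, h2, h3⟩ := hMOD m (fun ζ => cp β (ctr K⁻¹ k) K⁻¹ ζ * G ζ) Ξ 0 1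
        (K⁻¹ ^ 2) (zc l) (hTCk k) hTC one_pos ht0
      refine ⟨G', h1, fun z => ?_, fun ζ hζ => ?_⟩
      · rw [h2 z, (hL1 z).1]
        rfl
      · obtain ⟨ζ₁, ζ₂, g1, g2, rfl⟩ := h3 ζ hζ
        rw [(hL1 ζ₂).2]
        have g3 : G ζ₁ ≠ 0 := right_ne_zero_of_mul g1
        have g4 : β (K⁻¹⁻¹ • (ζ₁.1⁻¹ • ζ₁.2.1 - ctr K⁻¹ k)) ≠ 0 := left_ne_zero_of_mul g1
        have g5 : ‖ζ₁.1⁻¹ • ζ₁.2.1 - ctr K⁻¹ k‖ ≤ K⁻¹ := by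
          by_contra hcon
          push Not at hcon
          refine g4 (hβ.2.1 _ ?_)
          rw [norm_smul, inv_inv, Real.norm_eq_abs, abs_of_pos hK0]
          have := mul_le_mul_of_nonneg_left hcon.le hK0.le
          rwa [mul_inv_cancel₀ hK0.ne'] at this
        exact freq hK hKR hκ0 hκ (hRg ζ₁ g3) g5 (hsupp ζ₂ g2)
    choose G' hG1 hG2 hG3 using hG'
    have h1 := hCR (K ^ 2) S G' (fun _ _ => 1) (by nlinarith) (by rw [hsR]; exact hS)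
      (fun k _ => hG1 k) (fun k _ ζ hζ => by rw [hsR]; exact hG3 k ζ hζ)
      (fun k _ => ⟨measurable_const, fun z z' => by simp, fun z => ⟨one_ne_zero, ENNReal.one_ne_top⟩⟩)
    have hcard : (∑ _k ∈ S, (1 : ℝ≥0∞)) = (S.card : ℝ≥0∞) := by simp
    have hc0 : (S.card : ℝ≥0∞) ≠ 0 := by
      have := Finset.card_pos.2 hSne
      exact_mod_cast this.ne'
    have hct : (S.card : ℝ≥0∞) ≠ ⊤ := ENNReal.natCast_ne_top _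
    have hprod : ∀ z, ‖∑ k ∈ S, TF (G' k) z‖ₑ ^ P = ‖∑ k ∈ S, uk β K G k z‖ₑ ^ P * X l z := by
      intro z
      have h2 : ∑ k ∈ S, TF (G' k) z =
          (∑ k ∈ S, uk β K G k z) * TF Ξ (K⁻¹ ^ 2 • z - zc l) := by
        rw [Finset.sum_mul]
        exact Finset.sum_congr rfl fun k _ => hG2 k z
      rw [h2, enorm_mul, ENNReal.mul_rpow_of_nonneg _ _ hP0.le]
    have hprod2 : ∀ k z, ‖TF (G' k) z‖ₑ ^ P = ‖uk β K G k z‖ₑ ^ P * X l z := by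
      intro k z
      rw [hG2 k z, enorm_mul, ENNReal.mul_rpow_of_nonneg _ _ hP0.le]
    simp only [hcard, ENNReal.one_rpow, mul_one, hprod, hprod2] at h1
    have hFm : Measurable fun z => ‖∑ k ∈ S, uk β K G k z‖ₑ ^ P * X l z := by
      have : Continuous fun z => ∑ k ∈ S, uk β K G k z :=
        continuous_finset_sum _ fun k _ => hukc k
      exact ((this.measurable.enorm).pow_const P).mul (hXm l)
    rw [lintegral_mul_const _ hFm] at h1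
    have h3 : (S.card : ℝ≥0∞) ^ (1 - P / 2) * (S.card : ℝ≥0∞) ^ (P / 2 - 1) = 1 := by
      rw [← ENNReal.rpow_add _ _ hc0 hct]
      have : 1 - P / 2 + (P / 2 - 1) = 0 := by ring
      rw [this, ENNReal.rpow_zero]
    have h4 : (S.card : ℝ≥0∞) ^ (P / 2 - 1) = ENNReal.ofReal ((S.card : ℝ) ^ (P / 2 - 1)) := by
      rw [← ENNReal.ofReal_rpow_of_nonneg (Nat.cast_nonneg _) (by linarith), ENNReal.ofReal_natCast]
    have h5 : (K ^ 2) ^ ((P + 1) / (J : ℝ)) ≤ K ^ ε := by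
      rw [← Real.rpow_natCast K 2, ← Real.rpow_mul hK0.le]
      exact Real.rpow_le_rpow_of_exponent_le hK (by push_cast; exact hJ2)
    calc ∫⁻ z, ‖∑ k ∈ S, uk β K G k z‖ₑ ^ P * X l z
        = ((∫⁻ z, ‖∑ k ∈ S, uk β K G k z‖ₑ ^ P * X l z) * (S.card : ℝ≥0∞) ^ (1 - P / 2)) *
            (S.card : ℝ≥0∞) ^ (P / 2 - 1) := by rw [mul_assoc, h3, mul_one]
      _ ≤ (ENNReal.ofReal (CR * (K ^ 2) ^ ((P + 1) / (J : ℝ))) *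
          ∑ k ∈ S, ∫⁻ z, ‖uk β K G k z‖ₑ ^ P * X l z) * (S.card : ℝ≥0∞) ^ (P / 2 - 1) :=
          mul_le_mul_left h1 _
      _ ≤ (ENNReal.ofReal (CR * K ^ ε) *
          ∑ k ∈ S, ∫⁻ z, ‖uk β K G k z‖ₑ ^ P * X l z) * (S.card : ℝ≥0∞) ^ (P / 2 - 1) := by
          refine mul_le_mul_left (mul_le_mul_left (ENNReal.ofReal_le_ofReal ?_) _) _
          exact mul_le_mul_of_nonneg_left h5 hCR0.le
      _ = _ := by
          rw [h4, ENNReal.ofReal_mul (p := CR * K ^ ε) (by positivity)]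
          ring
  -- sums over the cells
  have hex : ∀ F : Z m → ℝ≥0∞, Measurable F →
      ∫⁻ z, F z * ∑' l, w l * X l z = ∑' l, w l * ∫⁻ z, F z * X l z := by
    intro F hF
    have h1 : ∀ z, F z * ∑' l, w l * X l z = ∑' l, w l * (F z * X l z) := by
      intro z
      rw [← ENNReal.tsum_mul_left]
      exact tsum_congr fun l => by ring
    have hFX : ∀ l, Measurable fun z => F z * X l z := fun l => hF.mul (hXm l)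
    have h2 : ∫⁻ z, ∑' l, w l * (F z * X l z) = ∑' l, ∫⁻ z, w l * (F z * X l z) :=
      lintegral_tsum fun l => ((hFX l).const_mul (w l)).aemeasurable
    simp_rw [h1]
    rw [h2]
    exact tsum_congr fun l => lintegral_const_mul _ (hFX l)
  have hukm : ∀ k, Measurable fun z => ‖uk β K G k z‖ₑ ^ P := fun k =>
    ((hukc k).measurable.enorm).pow_const P
  have hsumm : Measurable fun z => ‖∑ k ∈ S, uk β K G k z‖ₑ ^ P := by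
    have : Continuous fun z => ∑ k ∈ S, uk β K G k z :=
      continuous_finset_sum _ fun k _ => hukc k
    exact (this.measurable.enorm).pow_const P
  calc ∫⁻ z, ‖∑ k ∈ S, uk β K G k z‖ₑ ^ P * ENNReal.ofReal (wt N (K⁻¹ ^ 2 • z - zc j))
      ≤ ∫⁻ z, ENNReal.ofReal (((m : ℝ) + 2) ^ N) *
          (‖∑ k ∈ S, uk β K G k z‖ₑ ^ P * ∑' l, w l * X l z) := by
        refine lintegral_mono fun z => ?_
        calc _ ≤ ‖∑ k ∈ S, uk β K G k z‖ₑ ^ P *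
              (ENNReal.ofReal (((m : ℝ) + 2) ^ N) * ∑' l, w l * X l z) :=
              mul_le_mul_right (hA z) _
          _ = _ := by ring
    _ = ENNReal.ofReal (((m : ℝ) + 2) ^ N) *
          ∫⁻ z, ‖∑ k ∈ S, uk β K G k z‖ₑ ^ P * ∑' l, w l * X l z :=
        lintegral_const_mul' _ _ ENNReal.ofReal_ne_top
    _ = ENNReal.ofReal (((m : ℝ) + 2) ^ N) *
          ∑' l, w l * ∫⁻ z, ‖∑ k ∈ S, uk β K G k z‖ₑ ^ P * X l z := by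
        rw [hex _ hsumm]
    _ ≤ ENNReal.ofReal (((m : ℝ) + 2) ^ N) *
          ∑' l, w l * (ENNReal.ofReal (CR * K ^ ε * (S.card : ℝ) ^ (P / 2 - 1)) *
            ∑ k ∈ S, ∫⁻ z, ‖uk β K G k z‖ₑ ^ P * X l z) :=
        mul_le_mul_right (ENNReal.tsum_le_tsum fun l => mul_le_mul_right (hstar l) _) _
    _ = ENNReal.ofReal (((m : ℝ) + 2) ^ N) *
          (ENNReal.ofReal (CR * K ^ ε * (S.card : ℝ) ^ (P / 2 - 1)) *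
            ∑ k ∈ S, ∫⁻ z, ‖uk β K G k z‖ₑ ^ P * ∑' l, w l * X l z) := by
        congr 1
        have h1 : ∀ l, w l * (ENNReal.ofReal (CR * K ^ ε * (S.card : ℝ) ^ (P / 2 - 1)) *
            ∑ k ∈ S, ∫⁻ z, ‖uk β K G k z‖ₑ ^ P * X l z) =
            ENNReal.ofReal (CR * K ^ ε * (S.card : ℝ) ^ (P / 2 - 1)) *
              ∑ k ∈ S, w l * ∫⁻ z, ‖uk β K G k z‖ₑ ^ P * X l z := by
          intro l
          rw [← Finset.mul_sum]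
          ring
        simp_rw [h1]
        rw [ENNReal.tsum_mul_left, Summable.tsum_finsetSum fun k _ => ENNReal.summable]
        congr 1
        exact Finset.sum_congr rfl fun k _ => (hex _ (hukm k)).symm
    _ ≤ ENNReal.ofReal (((m : ℝ) + 2) ^ N) *
          (ENNReal.ofReal (CR * K ^ ε * (S.card : ℝ) ^ (P / 2 - 1)) *
            ∑ k ∈ S, ENNReal.ofReal (CS ^ P * (C3 + 1)) *
              ∫⁻ z, ‖uk β K G k z‖ₑ ^ P * ENNReal.ofReal (wt N (K⁻¹ ^ 2 • z - zc j))) := by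
        refine mul_le_mul_right (mul_le_mul_right (Finset.sum_le_sum fun k _ => ?_) _) _
        rw [← lintegral_const_mul' _ _ ENNReal.ofReal_ne_top]
        refine lintegral_mono fun z => ?_
        calc _ ≤ ‖uk β K G k z‖ₑ ^ P * (ENNReal.ofReal (CS ^ P * (C3 + 1)) *
              ENNReal.ofReal (wt N (K⁻¹ ^ 2 • z - zc j))) := mul_le_mul_right (hB z) _
          _ = _ := by ring
    _ = _ := by
        rw [← Finset.mul_sum]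
        have h1 : ((m : ℝ) + 2) ^ N * CR * (CS ^ P * (C3 + 1)) * K ^ ε *
            (S.card : ℝ) ^ (P / 2 - 1) = ((m : ℝ) + 2) ^ N *
              ((CR * K ^ ε * (S.card : ℝ) ^ (P / 2 - 1)) * (CS ^ P * (C3 + 1))) := by ring
        rw [h1, ENNReal.ofReal_mul (p := ((m : ℝ) + 2) ^ N) (by positivity),
          ENNReal.ofReal_mul (p := CR * K ^ ε * (S.card : ℝ) ^ (P / 2 - 1)) (by positivity)]
        ring

end Pool.Agent.H69.G4.DCL
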